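import Pool.Agent.H726R2.EM_T3

set_option autoImplicit false

/-!
Task T4 (`E2_left`) of the eighth moment project of helper223: Estermann's functional equation.
-/

namespace Pool.Agent.H726R2.EM

open Finset Filter Topology MeasureTheory Complex
open Pool.Agent.H306R2 Pool.Agent.H306R2.SM Pool.Agent.H223.EM

noncomputable section

/-- the L-series of a residue class -/
lemma single_series2 (h : ℕ) [NeZero h] (a : ZMod h) (s : ℂ) (hs : 1 < s.re) :
    LSeriesHasSum (fun n : ℕ => if (n : ZMod h) = a then (1 : ℂ) else 0) s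
      ((h : ℂ) ^ (-s) * HurwitzZeta.hurwitzZeta (ZMod.toAddCircle a) s) := by
  have h1 := (ZMod.LSeriesSummable_of_one_lt_re
    (fun j : ZMod h => if j = a then (1 : ℂ) else 0) hs).LSeriesHasSum
  rw [← ZMod.LFunction_eq_LSeries (fun j : ZMod h => if j = a then (1 : ℂ) else 0) hs] at h1
  have h2 : ZMod.LFunction (fun j : ZMod h => if j = a then (1 : ℂ) else 0) s =
      (h : ℂ) ^ (-s) * HurwitzZeta.hurwitzZeta (ZMod.toAddCircle a) s := by
    simp [ZMod.LFunction]
  rw [h2] at h1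
  exact h1

/-- the Dirichlet series of the two-variable Hurwitz function -/
lemma two_series (h : ℕ) [NeZero h] (Φ : ZMod h → ZMod h → ℂ) (s : ℂ) (hs : 1 < s.re) :
    LSeriesHasSum (fun n : ℕ => ∑ x ∈ n.divisorsAntidiagonal, Φ (x.1 : ZMod h) (x.2 : ZMod h)) s
      (E2 h Φ s) := by
  classical
  have hh : (h : ℂ) ≠ 0 := by exact_mod_cast NeZero.ne h
  set dl : ZMod h → ℕ → ℂ := fun a n => if (n : ZMod h) = a then (1 : ℂ) else 0 with hdl
  have hsum : ∀ a b : ZMod h, LSeriesHasSum (LSeries.convolution (dl a) (dl b)) s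
      (((h : ℂ) ^ (-s) * HurwitzZeta.hurwitzZeta (ZMod.toAddCircle a) s) *
        ((h : ℂ) ^ (-s) * HurwitzZeta.hurwitzZeta (ZMod.toAddCircle b) s)) :=
    fun a b => (single_series2 h a s hs).convolution (single_series2 h b s hs)
  have hall : LSeriesHasSum (∑ a : ZMod h, ∑ b : ZMod h,
      Φ a b • (LSeries.convolution (dl a) (dl b))) s (∑ a : ZMod h, ∑ b : ZMod h,
      Φ a b * (((h : ℂ) ^ (-s) * HurwitzZeta.hurwitzZeta (ZMod.toAddCircle a) s) *
        ((h : ℂ) ^ (-s) * HurwitzZeta.hurwitzZeta (ZMod.toAddCircle b) s))) := by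
    refine LSeriesHasSum.sum fun a _ => LSeriesHasSum.sum fun b _ => ?_
    exact (hsum a b).smul (Φ a b)
  have hval : (∑ a : ZMod h, ∑ b : ZMod h,
      Φ a b * (((h : ℂ) ^ (-s) * HurwitzZeta.hurwitzZeta (ZMod.toAddCircle a) s) *
        ((h : ℂ) ^ (-s) * HurwitzZeta.hurwitzZeta (ZMod.toAddCircle b) s))) = E2 h Φ s := by
    unfold E2
    have hp : (h : ℂ) ^ (-(2 * s)) = (h : ℂ) ^ (-s) * (h : ℂ) ^ (-s) := by
      rw [← Complex.cpow_add _ _ hh]
      congr 1; ring
    rw [hp, Finset.mul_sum]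
    refine Finset.sum_congr rfl fun a _ => ?_
    rw [Finset.mul_sum]
    refine Finset.sum_congr rfl fun b _ => ?_
    ring
  rw [hval] at hall
  refine (LSeriesHasSum_congr s (E2 h Φ s) ?_).mp hall
  intro n _
  have hconv : ∀ a b : ZMod h, (LSeries.convolution (dl a) (dl b)) n =
      ∑ x ∈ n.divisorsAntidiagonal, dl a x.1 * dl b x.2 := by
    intro a b
    simp only [LSeries.convolution_def]
  have hcomm : (∑ a : ZMod h, ∑ b : ZMod h, Φ a b • (LSeries.convolution (dl a) (dl b))) n =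
      ∑ a : ZMod h, ∑ b : ZMod h, ∑ x ∈ n.divisorsAntidiagonal,
        Φ a b * (dl a x.1 * dl b x.2) := by
    simp only [Finset.sum_apply, Pi.smul_apply, smul_eq_mul, hconv, Finset.mul_sum]
  rw [hcomm]
  have e2 : ∀ a : ZMod h, (∑ b : ZMod h, ∑ x ∈ n.divisorsAntidiagonal,
      Φ a b * (dl a x.1 * dl b x.2)) =
      ∑ x ∈ n.divisorsAntidiagonal, Φ a (x.2 : ZMod h) * dl a x.1 := by
    intro a
    rw [Finset.sum_comm]
    refine Finset.sum_congr rfl fun x _ => ?_
    simp only [hdl, mul_ite, mul_one, mul_zero, Finset.sum_ite_eq, Finset.mem_univ, if_true]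
  simp only [e2]
  rw [Finset.sum_comm]
  refine Finset.sum_congr rfl fun x _ => ?_
  simp only [hdl, mul_ite, mul_one, mul_zero, Finset.sum_ite_eq, Finset.mem_univ, if_true]

lemma d2_series (h : ℕ) [NeZero h] (u : ZMod h) (w : ℂ) (hw : 1 < w.re) :
    HasSum (fun j : ℕ => ((d2 j : ℝ) : ℂ) * (j : ℂ) ^ (-w) *
      ZMod.stdAddChar (-(u * (j : ZMod h)))) (E2 h (Pu h u) w) := by
  have h1 := two_series h (Pu h u) w hw
  unfold LSeriesHasSum at h1
  refine h1.congr_fun fun j => ?_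
  rcases Nat.eq_zero_or_pos j with rfl | hj
  · simp [d2, LSeries.term]
  · rw [LSeries.term_of_ne_zero hj.ne']
    have e1 : ∑ x ∈ j.divisorsAntidiagonal, Pu h u (x.1 : ZMod h) (x.2 : ZMod h) =
        ((d2 j : ℝ) : ℂ) * ZMod.stdAddChar (-(u * (j : ZMod h))) := by
      have e2 : ∀ x ∈ j.divisorsAntidiagonal, Pu h u (x.1 : ZMod h) (x.2 : ZMod h) =
          ZMod.stdAddChar (-(u * (j : ZMod h))) := by
        intro x hx
        unfold Pu
        have e3 := (Nat.mem_divisorsAntidiagonal.1 hx).1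
        rw [← e3]
        push_cast
        rw [mul_assoc]
      rw [Finset.sum_congr rfl e2,
        Nat.sum_divisorsAntidiagonal (fun _ _ => (ZMod.stdAddChar (-(u * (j : ZMod h))) : ℂ)),
        Finset.sum_const, nsmul_eq_mul]
      unfold d2
      push_cast
      rfl
    rw [e1, Complex.cpow_neg]
    ring

/-- sign -/
def sg (b : Bool) {h : ℕ} (a : ZMod h) : ZMod h := if b then a else -a

/-- exponential factors -/
def Ex (w : ℂ) (b : Bool) : ℂ :=
  if b then Complex.exp (-Real.pi * I * w / 2) else Complex.exp (Real.pi * I * w / 2)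

lemma hurwitz_left2 (h : ℕ) [NeZero h] (w : ℂ) (hw : 1 < w.re) (x : ZMod h) :
    HurwitzZeta.hurwitzZeta (ZMod.toAddCircle x) (1 - w) =
      ((2 * Real.pi : ℂ) ^ (-w) * Complex.Gamma w) *
        (Ex w true * HurwitzZeta.expZeta (ZMod.toAddCircle (sg true x)) w +
          Ex w false * HurwitzZeta.expZeta (ZMod.toAddCircle (sg false x)) w) := by
  rw [HurwitzZeta.hurwitzZeta_one_sub]
  · simp only [Ex, sg, if_true, Bool.false_eq_true, if_false, map_neg]
  · intro n hn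
    have := congrArg Complex.re hn
    simp only [Complex.neg_re, Complex.natCast_re] at this
    have h1 : (0 : ℝ) ≤ n := Nat.cast_nonneg n
    linarith
  · right
    intro h1
    rw [h1, Complex.one_re] at hw
    exact lt_irrefl _ hw

lemma expZeta_eq (h : ℕ) [NeZero h] (w : ℂ) (hw : 1 < w.re) (x : ZMod h) :
    HurwitzZeta.expZeta (ZMod.toAddCircle x) w = (h : ℂ) ^ (-w) *
      ∑ k : ZMod h, (ZMod.stdAddChar (x * k) : ℂ) *
        HurwitzZeta.hurwitzZeta (ZMod.toAddCircle k) w := by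
  rw [← ZMod.LFunction_stdAddChar_eq_expZeta x w (Or.inr (by
    intro h1
    rw [h1, Complex.one_re] at hw
    exact lt_irrefl _ hw))]
  rfl

/-- the double Gauss sum -/
lemma gauss2 (h : ℕ) [NeZero h] (u v : ZMod h) (huv : u * v = 1) (A B : ZMod h) :
    ∑ x : ZMod h, ∑ y : ZMod h, Pu h u x y *
      ((ZMod.stdAddChar (x * A) : ℂ) * (ZMod.stdAddChar (y * B) : ℂ)) =
      (h : ℂ) * ZMod.stdAddChar (v * A * B) := by
  classical
  have e1 : ∀ x y : ZMod h, Pu h u x y *
      ((ZMod.stdAddChar (x * A) : ℂ) * (ZMod.stdAddChar (y * B) : ℂ)) =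
      (ZMod.stdAddChar (x * A) : ℂ) * ZMod.stdAddChar (y * (B - u * x)) := by
    intro x y
    unfold Pu
    have e2 : y * (B - u * x) = -(u * x * y) + y * B := by ring
    rw [e2, AddChar.map_add_eq_mul]
    ring
  simp only [e1, ← Finset.mul_sum, sum_char]
  rw [Finset.sum_eq_single (v * B)]
  · have e3 : B - u * (v * B) = 0 := by
      rw [← mul_assoc, huv, one_mul, sub_self]
    rw [if_pos e3, mul_comm]
    congr 2
    ring
  · intro x _ hx
    rw [if_neg, mul_zero]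
    intro h0
    apply hx
    have e4 : B = u * x := by linear_combination h0
    rw [e4, ← mul_assoc, mul_comm v u, huv, one_mul]
  · intro h0; exact absurd (Finset.mem_univ _) h0

/-- the value for a choice of signs -/
lemma sign_sum (h : ℕ) [NeZero h] (u v : ZMod h) (huv : u * v = 1) (w : ℂ) (hw : 1 < w.re)
    (b1 b2 : Bool) :
    ∑ x : ZMod h, ∑ y : ZMod h, Pu h u x y *
      (HurwitzZeta.expZeta (ZMod.toAddCircle (sg b1 x)) w *
        HurwitzZeta.expZeta (ZMod.toAddCircle (sg b2 y)) w) =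
      (h : ℂ) * E2 h (Pu h (if b1 = b2 then -v else v)) w := by
  classical
  have hh : (h : ℂ) ≠ 0 := by exact_mod_cast NeZero.ne h
  have hp : (h : ℂ) ^ (-(2 * w)) = (h : ℂ) ^ (-w) * (h : ℂ) ^ (-w) := by
    rw [← Complex.cpow_add _ _ hh]
    congr 1; ring
  set ζ : ZMod h → ℂ := fun k => HurwitzZeta.hurwitzZeta (ZMod.toAddCircle k) w with hζ
  have e1 : ∀ x y : ZMod h, Pu h u x y *
      (HurwitzZeta.expZeta (ZMod.toAddCircle (sg b1 x)) w *
        HurwitzZeta.expZeta (ZMod.toAddCircle (sg b2 y)) w) =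
      ∑ k : ZMod h, ∑ l : ZMod h, ((h : ℂ) ^ (-(2 * w)) * (ζ k * ζ l)) * (Pu h u x y *
        ((ZMod.stdAddChar (x * sg b1 k) : ℂ) * (ZMod.stdAddChar (y * sg b2 l) : ℂ))) := by
    intro x y
    rw [expZeta_eq h w hw, expZeta_eq h w hw, hp]
    have e2 : ∀ (b : Bool) (x k : ZMod h), sg b x * k = x * sg b k := by
      intro b x k
      cases b <;> simp [sg]
    simp only [e2]
    have e3 : (h : ℂ) ^ (-w) * (∑ k : ZMod h, (ZMod.stdAddChar (x * sg b1 k) : ℂ) * ζ k) *
        ((h : ℂ) ^ (-w) * ∑ l : ZMod h, (ZMod.stdAddChar (y * sg b2 l) : ℂ) * ζ l) =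
        ((h : ℂ) ^ (-w) * (h : ℂ) ^ (-w)) * ∑ k : ZMod h, ∑ l : ZMod h,
          ((ZMod.stdAddChar (x * sg b1 k) : ℂ) * ζ k) *
            ((ZMod.stdAddChar (y * sg b2 l) : ℂ) * ζ l) := by
      rw [← Finset.sum_mul_sum]
      ring
    rw [e3]
    simp only [Finset.mul_sum]
    refine Finset.sum_congr rfl fun k _ => Finset.sum_congr rfl fun l _ => ?_
    ring
  simp only [e1]
  have e4 : ∑ x : ZMod h, ∑ y : ZMod h, ∑ k : ZMod h, ∑ l : ZMod h,
      ((h : ℂ) ^ (-(2 * w)) * (ζ k * ζ l)) * (Pu h u x y *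
        ((ZMod.stdAddChar (x * sg b1 k) : ℂ) * (ZMod.stdAddChar (y * sg b2 l) : ℂ))) =
      ∑ k : ZMod h, ∑ l : ZMod h, ((h : ℂ) ^ (-(2 * w)) * (ζ k * ζ l)) *
        ∑ x : ZMod h, ∑ y : ZMod h, (Pu h u x y *
        ((ZMod.stdAddChar (x * sg b1 k) : ℂ) * (ZMod.stdAddChar (y * sg b2 l) : ℂ))) := by
    simp only [Finset.mul_sum]
    calc _ = ∑ x : ZMod h, ∑ k : ZMod h, ∑ y : ZMod h, ∑ l : ZMod h,
          ((h : ℂ) ^ (-(2 * w)) * (ζ k * ζ l)) * (Pu h u x y *
        ((ZMod.stdAddChar (x * sg b1 k) : ℂ) * (ZMod.stdAddChar (y * sg b2 l) : ℂ))) :=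
          Finset.sum_congr rfl fun x _ => Finset.sum_comm
      _ = ∑ k : ZMod h, ∑ x : ZMod h, ∑ y : ZMod h, ∑ l : ZMod h,
          ((h : ℂ) ^ (-(2 * w)) * (ζ k * ζ l)) * (Pu h u x y *
        ((ZMod.stdAddChar (x * sg b1 k) : ℂ) * (ZMod.stdAddChar (y * sg b2 l) : ℂ))) :=
          Finset.sum_comm
      _ = ∑ k : ZMod h, ∑ x : ZMod h, ∑ l : ZMod h, ∑ y : ZMod h,
          ((h : ℂ) ^ (-(2 * w)) * (ζ k * ζ l)) * (Pu h u x y *
        ((ZMod.stdAddChar (x * sg b1 k) : ℂ) * (ZMod.stdAddChar (y * sg b2 l) : ℂ))) :=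
          Finset.sum_congr rfl fun k _ => Finset.sum_congr rfl fun x _ => Finset.sum_comm
      _ = _ := Finset.sum_congr rfl fun k _ => Finset.sum_comm
  rw [e4]
  unfold E2
  rw [Finset.mul_sum, Finset.mul_sum]
  refine Finset.sum_congr rfl fun k _ => ?_
  rw [Finset.mul_sum, Finset.mul_sum]
  refine Finset.sum_congr rfl fun l _ => ?_
  rw [gauss2 h u v huv]
  have e5 : (ZMod.stdAddChar (v * sg b1 k * sg b2 l) : ℂ) =
      Pu h (if b1 = b2 then -v else v) k l := by
    unfold Pu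
    congr 1
    cases b1 <;> cases b2 <;> simp [sg]
  rw [e5]
  ring

/-- T4. Estermann's functional equation -/
theorem E2_left (h : ℕ) [NeZero h] (u v : ZMod h) (huv : u * v = 1) (s : ℂ) (hs : s.re < 0) :
    HasSum (fun j : ℕ => ((d2 j : ℝ) : ℂ) * (j : ℂ) ^ (s - 1) *
        (ZMod.stdAddChar (-(v * (j : ZMod h))) * cs 0 s + ZMod.stdAddChar (v * (j : ZMod h)) * cs 1 s))
      (E2 h (Pu h u) s / (2 * (h : ℂ) * (h : ℂ) ^ (-(2 * s)) * (2 * Real.pi : ℂ) ^ (2 * s - 2) *
        Complex.Gamma (1 - s) ^ 2)) := by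
  classical
  obtain ⟨w, hw⟩ : ∃ w, w = 1 - s := ⟨_, rfl⟩
  have hs' : s = 1 - w := by rw [hw]; ring
  have hwre : 1 < w.re := by rw [hw, Complex.sub_re, Complex.one_re]; linarith
  have hh : (h : ℂ) ≠ 0 := by exact_mod_cast NeZero.ne h
  have hpi : (2 * Real.pi : ℂ) ≠ 0 := by
    have := Real.pi_ne_zero
    exact mul_ne_zero two_ne_zero (by exact_mod_cast this)
  have hG : Complex.Gamma w ≠ 0 := Complex.Gamma_ne_zero_of_re_pos (by linarith)
  set c : ℂ := (2 * Real.pi : ℂ) ^ (-w) * Complex.Gamma w with hc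
  have hE : E2 h (Pu h u) s = (h : ℂ) ^ (-(2 * s)) * (c ^ 2 *
      ((Ex w true ^ 2 + Ex w false ^ 2) * ((h : ℂ) * E2 h (Pu h (-v)) w) +
        2 * (Ex w true * Ex w false) * ((h : ℂ) * E2 h (Pu h v) w))) := by
    unfold E2
    congr 1
    set X : Bool → ZMod h → ℂ := fun b x =>
      HurwitzZeta.expZeta (ZMod.toAddCircle (sg b x)) w with hX
    have e1 : ∀ x y : ZMod h, Pu h u x y *
        (HurwitzZeta.hurwitzZeta (ZMod.toAddCircle x) s *
          HurwitzZeta.hurwitzZeta (ZMod.toAddCircle y) s) =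
        (c ^ 2 * Ex w true ^ 2) * (Pu h u x y * (X true x * X true y)) +
        (c ^ 2 * (Ex w true * Ex w false)) * (Pu h u x y * (X true x * X false y)) +
        (c ^ 2 * (Ex w true * Ex w false)) * (Pu h u x y * (X false x * X true y)) +
        (c ^ 2 * Ex w false ^ 2) * (Pu h u x y * (X false x * X false y)) := by
      intro x y
      rw [hs', hurwitz_left2 h w hwre x, hurwitz_left2 h w hwre y, ← hc]
      simp only [hX]
      ring
    simp only [e1, Finset.sum_add_distrib, ← Finset.mul_sum]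
    have q1 := sign_sum h u v huv w hwre true true
    have q2 := sign_sum h u v huv w hwre true false
    have q3 := sign_sum h u v huv w hwre false true
    have q4 := sign_sum h u v huv w hwre false false
    rw [if_pos rfl] at q1 q4
    rw [if_neg (by decide)] at q2 q3
    simp only [hX]
    rw [q1, q2, q3, q4]
    unfold E2
    ring
  have hE1 : Ex w true * Ex w false = 1 := by
    simp only [Ex, if_true, Bool.false_eq_true, if_false]
    rw [← Complex.exp_add]
    have : (-Real.pi * I * w / 2 + Real.pi * I * w / 2 : ℂ) = 0 := by ring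
    rw [this, Complex.exp_zero]
  have hE2 : Ex w true ^ 2 + Ex w false ^ 2 = -2 * Complex.cos ((Real.pi : ℂ) * s) := by
    simp only [Ex, if_true, Bool.false_eq_true, if_false]
    rw [← Complex.exp_nat_mul, ← Complex.exp_nat_mul]
    have h1 : Complex.cos ((Real.pi : ℂ) * s) = -Complex.cos ((Real.pi : ℂ) * w) := by
      rw [hs']
      have : (Real.pi : ℂ) * (1 - w) = Real.pi - Real.pi * w := by ring
      rw [this, Complex.cos_pi_sub]
    rw [h1, Complex.cos]
    have a1 : ((2 : ℕ) : ℂ) * (-Real.pi * I * w / 2) = -((Real.pi : ℂ) * w) * I := by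
      push_cast; ring
    have a2 : ((2 : ℕ) : ℂ) * (Real.pi * I * w / 2) = (Real.pi : ℂ) * w * I := by
      push_cast; ring
    rw [a1, a2]
    ring
  have hpp : (2 * Real.pi : ℂ) ^ (2 * s - 2) = (2 * Real.pi : ℂ) ^ (-w) * (2 * Real.pi : ℂ) ^ (-w) := by
    rw [← Complex.cpow_add _ _ hpi]
    congr 1
    rw [hs']
    ring
  have hval : E2 h (Pu h u) s / (2 * (h : ℂ) * (h : ℂ) ^ (-(2 * s)) *
      (2 * Real.pi : ℂ) ^ (2 * s - 2) * Complex.Gamma (1 - s) ^ 2) =
      E2 h (Pu h v) w * cs 0 s + E2 h (Pu h (-v)) w * cs 1 s := by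
    have n1 : (h : ℂ) ^ (-(2 * s)) ≠ 0 := by
      rw [Complex.cpow_def_of_ne_zero hh]; exact Complex.exp_ne_zero _
    have n2 : (2 * Real.pi : ℂ) ^ (-w) ≠ 0 := by
      rw [Complex.cpow_def_of_ne_zero hpi]; exact Complex.exp_ne_zero _
    rw [hE, hE1, hE2, hpp, ← hw, hc, div_eq_iff (by
      refine mul_ne_zero (mul_ne_zero (mul_ne_zero (mul_ne_zero two_ne_zero hh) n1)
        (mul_ne_zero n2 n2)) (pow_ne_zero 2 hG))]
    have c0 : cs 0 s = 1 := by simp [cs]
    have c1 : cs 1 s = -Complex.cos ((Real.pi : ℂ) * s) := by simp [cs]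
    rw [c0, c1]
    ring
  rw [hval]
  have hs1 : s - 1 = -w := by rw [hs']; ring
  have H1 := (d2_series h v w hwre).mul_right (cs 0 s)
  have H2 := (d2_series h (-v) w hwre).mul_right (cs 1 s)
  refine (H1.add H2).congr_fun fun j => ?_
  rw [hs1, neg_mul, neg_neg]
  ring

end

end Pool.Agent.H726R2.EM
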