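import Pool.Agent.H223.EM.Defs

set_option autoImplicit false

/-!
Tasks T3, T3b (`E2_entire`, `E2_Pz`) of the eighth moment project of helper223.
-/

namespace Pool.Agent.H726R2.EM

open Finset Filter Topology MeasureTheory Complex
open Pool.Agent.H306R2 Pool.Agent.H306R2.SM Pool.Agent.H223.EM

noncomputable section

/-- algebraic identity: with zero sums, a common shift of the values does not matter -/
lemma shift_sum2 (h : ℕ) [NeZero h] (Φ : ZMod h → ZMod h → ℂ)
    (h1 : ∀ y, ∑ x, Φ x y = 0) (h2 : ∀ x, ∑ y, Φ x y = 0)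
    (R : ZMod h → ℂ) (G : ℂ) :
    ∑ x : ZMod h, ∑ y : ZMod h, Φ x y * ((R x + G) * (R y + G)) =
      ∑ x : ZMod h, ∑ y : ZMod h, Φ x y * (R x * R y) := by
  have e1 : ∀ A : ZMod h → ℂ, ∑ x : ZMod h, ∑ y : ZMod h, Φ x y * (A x * G) = 0 := by
    intro A
    refine Finset.sum_eq_zero fun x _ => ?_
    rw [← Finset.sum_mul, h2, zero_mul]
  have e2 : ∀ A : ZMod h → ℂ, ∑ x : ZMod h, ∑ y : ZMod h, Φ x y * (G * A y) = 0 := by
    intro A
    rw [Finset.sum_comm]
    refine Finset.sum_eq_zero fun y _ => ?_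
    rw [← Finset.sum_mul, h1, zero_mul]
  have key : ∀ x y : ZMod h, Φ x y * ((R x + G) * (R y + G)) =
      Φ x y * (R x * R y) + Φ x y * ((R x + G) * G) + Φ x y * (G * R y) := by
    intro x y; ring
  simp only [key, Finset.sum_add_distrib]
  rw [e1 (fun x => R x + G), e2 R]
  ring

lemma sum_char (h : ℕ) [NeZero h] (b : ZMod h) :
    ∑ x : ZMod h, (ZMod.stdAddChar (x * b) : ℂ) = if b = 0 then (h : ℂ) else 0 := by
  classical
  have := AddChar.sum_mulShift b (ZMod.isPrimitive_stdAddChar h)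
  rw [this, ZMod.card]
  split_ifs <;> simp

lemma Pz_sum_left (h : ℕ) [NeZero h] (u : ZMod h) (hu : IsUnit u) (y : ZMod h) :
    ∑ x : ZMod h, Pz h u x y = 0 := by
  classical
  unfold Pz Pu
  rw [Finset.sum_sub_distrib]
  have e1 : ∀ x : ZMod h, (ZMod.stdAddChar (-(u * x * y)) : ℂ) =
      ZMod.stdAddChar (x * (-(u * y))) := by
    intro x; congr 1; ring
  simp only [e1]
  rw [sum_char]
  by_cases hy : y = 0
  · subst hy
    simp
  · have h1 : -(u * y) ≠ 0 := by
      rw [neg_ne_zero]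
      intro h0
      exact hy ((hu.mul_right_eq_zero).1 h0)
    rw [if_neg h1]
    simp [hy]

lemma Pz_sum_right (h : ℕ) [NeZero h] (u : ZMod h) (hu : IsUnit u) (x : ZMod h) :
    ∑ y : ZMod h, Pz h u x y = 0 := by
  classical
  rw [← Pz_sum_left h u hu x]
  refine Finset.sum_congr rfl fun y _ => ?_
  unfold Pz Pu
  have e1 : u * x * y = u * y * x := by ring
  rw [e1]
  simp only [and_comm]

/-- T3. `E2 h (Pz h u)` is entire -/
theorem E2_entire (h : ℕ) [NeZero h] (u : ZMod h) (hu : IsUnit u) :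
    ∃ g : ℂ → ℂ, Differentiable ℂ g ∧ ∀ s : ℂ, s ≠ 1 → g s = E2 h (Pz h u) s := by
  have hh : (h : ℂ) ≠ 0 := by exact_mod_cast NeZero.ne h
  have hpow : Differentiable ℂ (fun s : ℂ => (h : ℂ) ^ (-(2 * s))) := by
    intro s
    refine DifferentiableAt.const_cpow (by fun_prop) (Or.inl hh)
  refine ⟨E2 h (Pz h u), ?_, fun s _ => rfl⟩
  intro s
  by_cases hs : s = 1
  · subst hs
    set R : ZMod h → ℂ → ℂ := fun x s =>
      HurwitzZeta.hurwitzZeta (ZMod.toAddCircle x) s - 1 / (s - 1) / Gammaℝ s with hR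
    have hRd : ∀ x, DifferentiableAt ℂ (R x) 1 := fun x =>
      HurwitzZeta.differentiableAt_hurwitzZeta_sub_one_div _
    have hEE : E2 h (Pz h u) = fun s => (h : ℂ) ^ (-(2 * s)) * ∑ x : ZMod h, ∑ y : ZMod h,
        Pz h u x y * (R x s * R y s) := by
      funext s
      have h0 := shift_sum2 h (Pz h u) (Pz_sum_left h u hu) (Pz_sum_right h u hu)
        (fun x => R x s) (1 / (s - 1) / Gammaℝ s)
      simp only [hR, sub_add_cancel] at h0
      simp only [E2, hR]
      rw [h0]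
    rw [hEE]
    refine (hpow 1).mul ?_
    refine DifferentiableAt.fun_sum fun x _ => DifferentiableAt.fun_sum fun y _ => ?_
    exact ((hRd x).mul (hRd y)).const_mul _
  · unfold E2
    refine (hpow s).mul ?_
    refine DifferentiableAt.fun_sum fun x _ => DifferentiableAt.fun_sum fun y _ => ?_
    exact ((HurwitzZeta.differentiableAt_hurwitzZeta _ hs).mul
      (HurwitzZeta.differentiableAt_hurwitzZeta _ hs)).const_mul _

/-- T3b. relation with `ζ^2` -/
theorem E2_Pz (h : ℕ) [NeZero h] (u : ZMod h) (s : ℂ) :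
    E2 h (Pz h u) s = E2 h (Pu h u) s - (h : ℂ) * (h : ℂ) ^ (-(2 * s)) * riemannZeta s ^ 2 := by
  classical
  unfold E2 Pz
  have e1 : ∑ x : ZMod h, ∑ y : ZMod h, (if x = 0 ∧ y = 0 then (h : ℂ) else 0) *
      (HurwitzZeta.hurwitzZeta (ZMod.toAddCircle x) s *
        HurwitzZeta.hurwitzZeta (ZMod.toAddCircle y) s) = (h : ℂ) * riemannZeta s ^ 2 := by
    rw [Finset.sum_eq_single (0 : ZMod h)]
    · rw [Finset.sum_eq_single (0 : ZMod h)]
      · rw [if_pos ⟨rfl, rfl⟩, map_zero, HurwitzZeta.hurwitzZeta_zero]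
        ring
      · intro y _ hy
        rw [if_neg (fun h => hy h.2), zero_mul]
      · intro h0; exact absurd (Finset.mem_univ _) h0
    · intro x _ hx
      refine Finset.sum_eq_zero fun y _ => ?_
      rw [if_neg (fun h => hx h.1), zero_mul]
    · intro h0; exact absurd (Finset.mem_univ _) h0
  simp only [sub_mul, Finset.sum_sub_distrib]
  rw [e1]
  ring

end

end Pool.Agent.H726R2.EM
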