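import Pool.Agent.H295R2.Mol.Defs

set_option autoImplicit false

open MeasureTheory Filter Topology Set
open scoped ENNReal

namespace Pool.Agent.H726R2.MolCoef
open Pool.Agent.H295R2.Mol

theorem conv_delta {lam mu : ℕ → ℂ} {F : ℂ → ℂ} (hF : LF lam mu F) {n : ℕ} (hn : n ≠ 0) :
    LSeries.convolution mu lam n = LSeries.delta n := by
  have hs : ∀ s : ℂ, 1 < s.re → LSeriesHasSum (LSeries.convolution mu lam) s 1 := by
    intro s hs
    have h1 := hF.series s hs
    obtain ⟨h2, h3⟩ := hF.inv s hs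
    have := LSeriesHasSum.convolution h3 h1
    rwa [inv_mul_cancel₀ h2] at this
  have habs : LSeries.abscissaOfAbsConv (LSeries.convolution mu lam) < ⊤ := by
    have h2 : LSeriesSummable (LSeries.convolution mu lam) 2 := (hs 2 (by norm_num)).LSeriesSummable
    refine lt_of_le_of_lt h2.abscissaOfAbsConv_le ?_
    exact EReal.coe_lt_top _
  have habs2 : LSeries.abscissaOfAbsConv (LSeries.delta : ℕ → ℂ) < ⊤ := by
    have h2 : LSeriesSummable (LSeries.delta : ℕ → ℂ) 2 := by
      refine LSeriesSummable_of_bounded_of_one_lt_re (m := 1) ?_ (by norm_num)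
      intro n _
      unfold LSeries.delta
      split_ifs <;> simp
    refine lt_of_le_of_lt h2.abscissaOfAbsConv_le ?_
    exact EReal.coe_lt_top _
  refine LSeries.eq_of_LSeries_eventually_eq habs habs2 ?_ hn
  filter_upwards [eventually_gt_atTop (1 : ℝ)] with x hx
  rw [(hs x (by simpa using hx)).LSeries_eq, LSeries_delta]
  rfl

theorem bco_eq (lam a : ℕ → ℂ) (m : ℕ) : bco lam a m = LSeries.convolution a lam m := by
  rw [LSeries.convolution_def]
  unfold bco
  exact (Nat.sum_divisorsAntidiagonal (fun i j => a i * lam j)).symm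

theorem inversion {lam mu : ℕ → ℂ} {F : ℂ → ℂ} (hF : LF lam mu F) (a : ℕ → ℂ) {n : ℕ}
    (hn : n ≠ 0) : a n = ∑ p ∈ n.divisorsAntidiagonal, mu p.1 * bco lam a p.2 := by
  have h1 : toArithmeticFunction mu * toArithmeticFunction lam = (1 : ArithmeticFunction ℂ) := by
    ext m
    rcases eq_or_ne m 0 with rfl | hm
    · simp
    · have := conv_delta hF hm
      unfold LSeries.convolution at this
      rw [this, ArithmeticFunction.one_apply]
      rfl
  have h2 : LSeries.convolution mu (LSeries.convolution a lam) n = a n := by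
    have h3 : toArithmeticFunction (LSeries.convolution a lam) =
        toArithmeticFunction a * toArithmeticFunction lam := by
      show toArithmeticFunction (⇑(toArithmeticFunction a * toArithmeticFunction lam)) = _
      exact ArithmeticFunction.toArithmeticFunction_eq_self _
    show (toArithmeticFunction mu * toArithmeticFunction (LSeries.convolution a lam)) n = a n
    rw [h3, mul_left_comm, h1, mul_one]
    show (if n = 0 then 0 else a n) = a n
    rw [if_neg hn]
  rw [← h2, LSeries.convolution_def]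
  refine Finset.sum_congr rfl fun p _ => ?_
  rw [bco_eq]

theorem coef_of (h : CoefB) : Coef := by
  intro lam mu F hF p w σ hp
  obtain ⟨C0, B0, hC0, hB0, H⟩ := h lam mu F hF p w σ hp
  obtain ⟨C1, hC1⟩ := ((hF.inv 2 (by norm_num)).2.LSeriesSummable).le_const_mul_rpow
  have hre : (2 : ℂ).re = 2 := by norm_num
  rw [hre] at hC1
  refine ⟨(|C1| + 1) * C0, 1 + 2 + B0, by positivity, by linarith, ?_⟩
  intro N a hN hnrm n hn
  rw [Finset.mem_Icc] at hn
  have hn0 : n ≠ 0 := by omega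
  have hN1 : (1 : ℝ) ≤ N := by exact_mod_cast hN
  have hN0 : (0 : ℝ) < N := by linarith
  have hterm : ∀ q ∈ n.divisorsAntidiagonal,
      ‖mu q.1 * bco lam a q.2‖ ≤ (|C1| + 1) * C0 * (N : ℝ) ^ (2 + B0) := by
    intro q hq
    obtain ⟨hq1, hq2⟩ := Nat.mem_divisorsAntidiagonal.1 hq
    have hq10 : q.1 ≠ 0 := by rintro h; rw [h, zero_mul] at hq1; exact hq2 hq1.symm
    have hq20 : q.2 ≠ 0 := by rintro h; rw [h, mul_zero] at hq1; exact hq2 hq1.symm
    have hq1N : q.1 ≤ N := by
      calc q.1 = q.1 * 1 := (mul_one _).symm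
        _ ≤ q.1 * q.2 := Nat.mul_le_mul_left _ (Nat.one_le_iff_ne_zero.2 hq20)
        _ = n := hq1
        _ ≤ N := hn.2
    have hq2N : q.2 ≤ N := by
      calc q.2 = 1 * q.2 := (one_mul _).symm
        _ ≤ q.1 * q.2 := Nat.mul_le_mul_right _ (Nat.one_le_iff_ne_zero.2 hq10)
        _ = n := hq1
        _ ≤ N := hn.2
    have a1 : ‖mu q.1‖ ≤ (|C1| + 1) * (N : ℝ) ^ (2 : ℝ) := by
      refine (hC1 q.1 hq10).trans ?_
      have b1 : (q.1 : ℝ) ^ (2 : ℝ) ≤ (N : ℝ) ^ (2 : ℝ) :=
        Real.rpow_le_rpow (by positivity) (by exact_mod_cast hq1N) (by norm_num)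
      have b2 : C1 ≤ |C1| + 1 := by linarith [le_abs_self C1]
      have b3 : 0 ≤ (q.1 : ℝ) ^ (2 : ℝ) := by positivity
      calc C1 * (q.1 : ℝ) ^ (2 : ℝ) ≤ (|C1| + 1) * (q.1 : ℝ) ^ (2 : ℝ) :=
            mul_le_mul_of_nonneg_right b2 b3
        _ ≤ _ := mul_le_mul_of_nonneg_left b1 (by positivity)
    have a2 : ‖bco lam a q.2‖ ≤ C0 * (N : ℝ) ^ B0 := by
      refine (H N a hN hnrm q.2 (Finset.mem_Icc.2 ⟨by omega, hq2N⟩)).trans ?_
      refine mul_le_mul_of_nonneg_left ?_ hC0.le
      exact Real.rpow_le_rpow (by positivity) (by exact_mod_cast hq2N) hB0.le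
    rw [norm_mul]
    calc ‖mu q.1‖ * ‖bco lam a q.2‖ ≤ ((|C1| + 1) * (N : ℝ) ^ (2 : ℝ)) * (C0 * (N : ℝ) ^ B0) :=
          mul_le_mul a1 a2 (norm_nonneg _) (by positivity)
      _ = (|C1| + 1) * C0 * (N : ℝ) ^ (2 + B0) := by rw [Real.rpow_add hN0]; ring
  rw [inversion hF a hn0]
  refine (norm_sum_le _ _).trans ((Finset.sum_le_sum hterm).trans ?_)
  rw [Finset.sum_const, nsmul_eq_mul]
  have hcard : ((n.divisorsAntidiagonal).card : ℝ) ≤ N := by
    have h1 : (n.divisorsAntidiagonal).card = n.divisors.card := by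
      rw [← Nat.map_div_right_divisors, Finset.card_map]
    rw [h1]
    exact_mod_cast (Nat.card_divisors_le_self n).trans hn.2
  calc ((n.divisorsAntidiagonal).card : ℝ) * ((|C1| + 1) * C0 * (N : ℝ) ^ (2 + B0))
      ≤ N * ((|C1| + 1) * C0 * (N : ℝ) ^ (2 + B0)) :=
        mul_le_mul_of_nonneg_right hcard (by positivity)
    _ = (|C1| + 1) * C0 * (N : ℝ) ^ (1 + 2 + B0) := by
        rw [show (1 : ℝ) + 2 + B0 = 1 + (2 + B0) by ring, Real.rpow_add hN0 1, Real.rpow_one]
        ring

end Pool.Agent.H726R2.MolCoef
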