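import Pool.Agent.H295R2.Mol.Defs

set_option autoImplicit false

open MeasureTheory Filter Topology Set
open scoped ENNReal

namespace Pool.Agent.H726R2.MolDir
open Pool.Agent.H295R2.Mol

noncomputable section

/-- iterated differences of `x^(-s)` -/
def D : ℕ → ℂ → ℝ → ℂ
  | 0, s, x => (x : ℂ) ^ (-s)
  | (k + 1), s, x => D k s x - D k s (x + 1)

theorem D_deriv (k : ℕ) : ∀ (s : ℂ) {x : ℝ}, 0 < x →
    HasDerivAt (D k s) (-s * D k (s + 1) x) x := by
  induction k with
  | zero =>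
    intro s x hx
    have h1 : HasStrictDerivAt (fun y : ℂ => y ^ (-s)) (-s * (x : ℂ) ^ (-s - 1)) (x : ℂ) := by
      have := (hasStrictDerivAt_id (x : ℂ)).cpow_const (c := -s)
        (Or.inl (by simpa using hx))
      simpa using this
    have h2 := h1.hasDerivAt.comp_ofReal
    have h3 : (-s - 1 : ℂ) = -(s + 1) := by ring
    rw [h3] at h2
    exact h2
  | succ k ih =>
    intro s x hx
    have h1 := ih s hx
    have h2 : HasDerivAt (fun y => D k s (y + 1)) (-s * D k (s + 1) (x + 1)) x :=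
      HasDerivAt.comp_add_const x 1 (ih s (by linarith : (0:ℝ) < x + 1))
    have h3 := h1.sub h2
    have h4 : -s * D k (s + 1) x - -s * D k (s + 1) (x + 1) = -s * D (k + 1) (s + 1) x := by
      show _ = -s * (D k (s + 1) x - D k (s + 1) (x + 1))
      ring
    rw [h4] at h3
    exact h3

theorem D_norm (k : ℕ) : ∀ (s : ℂ) (x : ℝ), 0 < x → 0 ≤ s.re + k →
    ‖D k s x‖ ≤ (∏ j ∈ Finset.range k, ‖s + j‖) * x ^ (-(s.re + k)) := by
  induction k with
  | zero =>
    intro s x hx _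
    show ‖(x : ℂ) ^ (-s)‖ ≤ _
    rw [Complex.norm_cpow_eq_rpow_re_of_pos hx]
    simp
  | succ k ih =>
    intro s x hx hs
    push_cast at hs
    have hbd : ∀ y ∈ Ico x (x + 1), ‖-s * D k (s + 1) y‖ ≤
        (∏ j ∈ Finset.range (k + 1), ‖s + j‖) * x ^ (-(s.re + (k + 1 : ℕ))) := by
      intro y hy
      have hy0 : 0 < y := lt_of_lt_of_le hx hy.1
      have h1 := ih (s + 1) y hy0 (by simp only [Complex.add_re, Complex.one_re]; linarith)
      have h2 : y ^ (-((s + 1).re + k)) ≤ x ^ (-((s + 1).re + k)) := by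
        apply Real.rpow_le_rpow_of_nonpos hx hy.1
        simp only [Complex.add_re, Complex.one_re]; linarith
      have h3 : (0 : ℝ) ≤ ∏ j ∈ Finset.range k, ‖s + 1 + j‖ :=
        Finset.prod_nonneg fun j _ => norm_nonneg _
      have h4 : (∏ j ∈ Finset.range (k + 1), ‖s + j‖) =
          ‖s‖ * ∏ j ∈ Finset.range k, ‖s + 1 + j‖ := by
        rw [Finset.prod_range_succ', mul_comm]
        simp only [Nat.cast_zero, add_zero]
        congr 1
        refine Finset.prod_congr rfl fun j _ => ?_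
        push_cast
        congr 1
        ring
      rw [norm_mul, norm_neg, h4, mul_assoc]
      refine mul_le_mul_of_nonneg_left ?_ (norm_nonneg _)
      refine h1.trans ((mul_le_mul_of_nonneg_left h2 h3).trans (le_of_eq ?_))
      congr 2
      simp only [Complex.add_re, Complex.one_re]
      push_cast
      ring
    have h5 := norm_image_sub_le_of_norm_deriv_le_segment' (f := D k s) (a := x) (b := x + 1)
      (f' := fun y => -s * D k (s + 1) y)
      (fun y hy => (D_deriv k s (lt_of_lt_of_le hx hy.1)).hasDerivWithinAt) hbd (x + 1)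
      ⟨by linarith, le_rfl⟩
    show ‖D k s x - D k s (x + 1)‖ ≤ _
    rw [norm_sub_rev]
    refine h5.trans (le_of_eq ?_)
    ring

theorem D_crude (k : ℕ) : ∀ (s : ℂ) (x M : ℝ), 1 ≤ x → |s.re| ≤ M →
    ‖D k s x‖ ≤ 2 ^ k * (x + k) ^ M := by
  induction k with
  | zero =>
    intro s x M hx hM
    show ‖(x : ℂ) ^ (-s)‖ ≤ _
    rw [Complex.norm_cpow_eq_rpow_re_of_pos (by linarith)]
    simp only [Complex.neg_re, pow_zero, Nat.cast_zero, add_zero, one_mul]
    exact Real.rpow_le_rpow_of_exponent_le hx ((neg_le_abs _).trans hM)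
  | succ k ih =>
    intro s x M hx hM
    have hM0 : 0 ≤ M := (abs_nonneg _).trans hM
    have h1 := ih s x M hx hM
    have h2 := ih s (x + 1) M (by linarith) hM
    have h3 : (x + k) ^ M ≤ (x + (k + 1 : ℕ)) ^ M := by
      apply Real.rpow_le_rpow (by positivity) _ hM0
      push_cast; linarith
    have h4 : x + 1 + (k : ℝ) = x + (k + 1 : ℕ) := by push_cast; ring
    rw [h4] at h2
    show ‖D k s x - D k s (x + 1)‖ ≤ _
    calc ‖D k s x - D k s (x + 1)‖ ≤ ‖D k s x‖ + ‖D k s (x + 1)‖ := norm_sub_le _ _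
      _ ≤ 2 ^ k * (x + (k + 1 : ℕ)) ^ M + 2 ^ k * (x + (k + 1 : ℕ)) ^ M :=
          add_le_add (h1.trans (mul_le_mul_of_nonneg_left h3 (by positivity))) h2
      _ = _ := by ring

theorem D_diff (k : ℕ) : ∀ x : ℝ, 0 < x → Differentiable ℂ (fun s => D k s x) := by
  induction k with
  | zero =>
    intro x hx
    show Differentiable ℂ (fun s : ℂ => (x : ℂ) ^ (-s))
    exact differentiable_id.neg.const_cpow (Or.inl (by exact_mod_cast hx.ne'))
  | succ k ih =>
    intro x hx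
    exact (ih x hx).sub (ih (x + 1) (by linarith))

/-! ### periodic sequences with mean zero -/

structure PM (q : ℕ) (a : ℕ → ℂ) : Prop where
  per : Function.Periodic a q
  zero : ∑ n ∈ Finset.range q, a n = 0

def cc (q : ℕ) (a : ℕ → ℂ) : ℂ :=
  (∑ n ∈ Finset.range q, ∑ m ∈ Finset.range (n + 1), a m) / q

def nxt (q : ℕ) (a : ℕ → ℂ) (n : ℕ) : ℂ := ∑ m ∈ Finset.range (n + 1), a m - cc q a

theorem PM.nxt {q : ℕ} (hq : 0 < q) {a : ℕ → ℂ} (h : PM q a) : PM q (nxt q a) := by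
  constructor
  · intro n
    show ∑ m ∈ Finset.range (n + q + 1), a m - cc q a = ∑ m ∈ Finset.range (n + 1), a m - cc q a
    have h1 : n + q + 1 = q + (n + 1) := by ring
    rw [h1, Finset.sum_range_add, h.zero, zero_add]
    congr 1
    refine Finset.sum_congr rfl fun m _ => ?_
    rw [add_comm q m]
    exact h.per m
  · unfold MolDir.nxt cc
    rw [Finset.sum_sub_distrib, Finset.sum_const, Finset.card_range, nsmul_eq_mul]
    have : (q : ℂ) ≠ 0 := by exact_mod_cast hq.ne'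
    field_simp
    ring

theorem PM.bdd {q : ℕ} (hq : 0 < q) {a : ℕ → ℂ} (h : PM q a) :
    ∃ B : ℝ, 0 ≤ B ∧ ∀ n, ‖a n‖ ≤ B := by
  refine ⟨∑ m ∈ Finset.range q, ‖a m‖, Finset.sum_nonneg fun _ _ => norm_nonneg _, fun n => ?_⟩
  rw [← h.per.map_mod_nat n]
  exact Finset.single_le_sum (f := fun m => ‖a m‖) (fun _ _ => norm_nonneg _)
    (Finset.mem_range.2 (Nat.mod_lt _ hq))

def H (k : ℕ) (a : ℕ → ℂ) (s : ℂ) : ℂ := ∑' n : ℕ, a n * D k s ((n : ℝ) + 1)

theorem sum_rpow {p : ℝ} (hp : 1 < p) : Summable (fun n : ℕ => ((n : ℝ) + 1) ^ (-p)) := by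
  have h1 : Summable (fun n : ℕ => (n : ℝ) ^ (-p)) := Real.summable_nat_rpow.2 (by linarith)
  have h2 := (summable_nat_add_iff 1).2 h1
  refine h2.congr fun n => ?_
  push_cast
  rfl

theorem term_le {k : ℕ} {a : ℕ → ℂ} {B : ℝ} (hB0 : 0 ≤ B) (hB : ∀ n, ‖a n‖ ≤ B) {s : ℂ}
    (hs : 0 ≤ s.re + k) (n : ℕ) : ‖a n * D k s ((n : ℝ) + 1)‖ ≤
      B * ((∏ j ∈ Finset.range k, ‖s + j‖) * ((n : ℝ) + 1) ^ (-(s.re + k))) := by
  rw [norm_mul]
  exact mul_le_mul (hB n) (D_norm k s _ (by positivity) hs) (norm_nonneg _) hB0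

theorem H_summable {k : ℕ} {a : ℕ → ℂ} {B : ℝ} (hB0 : 0 ≤ B) (hB : ∀ n, ‖a n‖ ≤ B) {s : ℂ}
    (hs : 1 < s.re + k) : Summable (fun n : ℕ => a n * D k s ((n : ℝ) + 1)) := by
  refine Summable.of_norm_bounded ?_ (term_le hB0 hB (by linarith))
  exact ((sum_rpow hs).mul_left _).mul_left _

theorem abel (q : ℕ) (a g : ℕ → ℂ) (N : ℕ) :
    ∑ n ∈ Finset.range (N + 1), a n * g n = nxt q a N * g N + cc q a * g 0 +
      ∑ n ∈ Finset.range N, nxt q a n * (g n - g (n + 1)) := by
  induction N with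
  | zero => simp [nxt]; ring
  | succ N ih =>
    rw [Finset.sum_range_succ, ih, Finset.sum_range_succ _ N]
    have : a (N + 1) = nxt q a (N + 1) - nxt q a N := by
      unfold nxt
      rw [Finset.sum_range_succ _ (N + 1)]
      ring
    rw [this]
    ring

theorem H_step {q : ℕ} (hq : 0 < q) {a : ℕ → ℂ} (h : PM q a) {k : ℕ} {s : ℂ}
    (hs : 1 < s.re + k) : H k a s = cc q a * D k s 1 + H (k + 1) (nxt q a) s := by
  obtain ⟨B, hB0, hB⟩ := h.bdd hq
  obtain ⟨B', hB0', hB'⟩ := (h.nxt hq).bdd hq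
  set g : ℕ → ℂ := fun n => D k s ((n : ℝ) + 1) with hg
  have hg0 : Tendsto g atTop (𝓝 0) := by
    have h1 : Tendsto (fun n : ℕ => (∏ j ∈ Finset.range k, ‖s + j‖) *
        ((n : ℝ) + 1) ^ (-(s.re + k))) atTop (𝓝 0) := by
      have := ((sum_rpow hs).mul_left (∏ j ∈ Finset.range k, ‖s + j‖)).tendsto_atTop_zero
      exact this
    exact squeeze_zero_norm (fun n => D_norm k s _ (by positivity) (by linarith)) h1
  have hlim1 : Tendsto (fun N => ∑ n ∈ Finset.range (N + 1), a n * g n) atTop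
      (𝓝 (H k a s)) :=
    (H_summable hB0 hB hs).hasSum.tendsto_sum_nat.comp (tendsto_add_atTop_nat 1)
  have hsum2 : Summable (fun n : ℕ => nxt q a n * D (k + 1) s ((n : ℝ) + 1)) :=
    H_summable hB0' hB' (by push_cast; linarith)
  have hlim2 : Tendsto (fun N => ∑ n ∈ Finset.range N, nxt q a n * (g n - g (n + 1))) atTop
      (𝓝 (H (k + 1) (nxt q a) s)) := by
    have := hsum2.hasSum.tendsto_sum_nat
    refine this.congr fun N => Finset.sum_congr rfl fun n _ => ?_
    rw [hg]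
    show nxt q a n * (D k s ((n : ℝ) + 1) - D k s ((n : ℝ) + 1 + 1)) = _
    push_cast
    rfl
  have hlim3 : Tendsto (fun N => nxt q a N * g N) atTop (𝓝 0) := by
    have h1 : Tendsto (fun N => B' * ‖g N‖) atTop (𝓝 0) := by
      have := (hg0.norm).const_mul B'
      simpa using this
    refine squeeze_zero_norm (fun N => ?_) h1
    rw [norm_mul]
    exact mul_le_mul_of_nonneg_right (hB' N) (norm_nonneg _)
  have hlim4 := (hlim3.add_const (cc q a * g 0)).add hlim2
  have hlim5 := hlim4.congr (fun N => (abel q a g N).symm)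
  have := tendsto_nhds_unique hlim1 hlim5
  rw [this, zero_add]
  congr 2
  rw [hg]
  simp

def aseq (q : ℕ) (a : ℕ → ℂ) : ℕ → (ℕ → ℂ)
  | 0 => a
  | (k + 1) => nxt q (aseq q a k)

theorem aseq_PM {q : ℕ} (hq : 0 < q) {a : ℕ → ℂ} (h : PM q a) (k : ℕ) : PM q (aseq q a k) := by
  induction k with
  | zero => exact h
  | succ k ih => exact ih.nxt hq

theorem H_iter {q : ℕ} (hq : 0 < q) {a : ℕ → ℂ} (h : PM q a) {s : ℂ} (hs : 1 < s.re) (k : ℕ) :
    H 0 a s = ∑ j ∈ Finset.range k, cc q (aseq q a j) * D j s 1 + H k (aseq q a k) s := by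
  induction k with
  | zero => simp [aseq]
  | succ k ih =>
    have hk : (0 : ℝ) ≤ k := Nat.cast_nonneg k
    rw [ih, Finset.sum_range_succ, H_step hq (aseq_PM hq h k) (by linarith), add_assoc]
    rfl

theorem H_bound {k : ℕ} {a : ℕ → ℂ} {B : ℝ} (hB0 : 0 ≤ B) (hB : ∀ n, ‖a n‖ ≤ B) {s : ℂ}
    (hs : 2 ≤ s.re + k) : ‖H k a s‖ ≤
      B * ((∏ j ∈ Finset.range k, ‖s + j‖) * ∑' n : ℕ, ((n : ℝ) + 1) ^ (-(2 : ℝ))) := by
  have h1 : ∀ n : ℕ, ‖a n * D k s ((n : ℝ) + 1)‖ ≤
      B * ((∏ j ∈ Finset.range k, ‖s + j‖) * ((n : ℝ) + 1) ^ (-(2 : ℝ))) := by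
    intro n
    refine (term_le hB0 hB (by linarith) n).trans ?_
    refine mul_le_mul_of_nonneg_left ?_ hB0
    refine mul_le_mul_of_nonneg_left ?_ (Finset.prod_nonneg fun _ _ => norm_nonneg _)
    apply Real.rpow_le_rpow_of_exponent_le
    · have : (0 : ℝ) ≤ n := Nat.cast_nonneg n
      linarith
    · linarith
  have hs2 : Summable (fun n : ℕ => B * ((∏ j ∈ Finset.range k, ‖s + j‖) *
      ((n : ℝ) + 1) ^ (-(2 : ℝ)))) := ((sum_rpow (by norm_num)).mul_left _).mul_left _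
  refine (tsum_of_norm_bounded hs2.hasSum h1).trans (le_of_eq ?_)
  rw [tsum_mul_left, tsum_mul_left]

theorem H_diff {k : ℕ} {a : ℕ → ℂ} {B : ℝ} (hB0 : 0 ≤ B) (hB : ∀ n, ‖a n‖ ≤ B) :
    DifferentiableOn ℂ (H k a) {s : ℂ | 1 - (k : ℝ) < s.re} := by
  intro s0 hs0
  have hs0' : 1 - (k : ℝ) < s0.re := hs0
  set d : ℝ := (s0.re - (1 - k)) / 2 with hd
  have hdpos : 0 < d := by rw [hd]; linarith
  have hball : ∀ w ∈ Metric.ball s0 d, 1 + d ≤ w.re + k ∧ ‖w‖ ≤ ‖s0‖ + d := by
    intro w hw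
    rw [Metric.mem_ball, dist_eq_norm] at hw
    have h1 : |w.re - s0.re| ≤ ‖w - s0‖ := by
      have := Complex.abs_re_le_norm (w - s0)
      simpa using this
    have h2 := (abs_le.1 h1).1
    refine ⟨by rw [hd] at hw ⊢; linarith, ?_⟩
    have : ‖w‖ ≤ ‖s0‖ + ‖w - s0‖ := by
      calc ‖w‖ = ‖s0 + (w - s0)‖ := by congr 1; ring
        _ ≤ _ := norm_add_le _ _
    linarith
  have hu : Summable (fun n : ℕ => B * ((∏ j ∈ Finset.range k, (‖s0‖ + d + j)) *
      ((n : ℝ) + 1) ^ (-(1 + d)))) := ((sum_rpow (by linarith)).mul_left _).mul_left _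
  have key : DifferentiableOn ℂ (fun s => ∑' n : ℕ, a n * D k s ((n : ℝ) + 1))
      (Metric.ball s0 d) := by
    refine Complex.differentiableOn_tsum_of_summable_norm hu (fun n => ?_) Metric.isOpen_ball ?_
    · exact ((D_diff k _ (by positivity)).const_mul _).differentiableOn
    · intro n w hw
      obtain ⟨h1, h2⟩ := hball w hw
      refine (term_le hB0 hB (by linarith) n).trans ?_
      refine mul_le_mul_of_nonneg_left ?_ hB0
      have h3 : (0 : ℝ) ≤ n := Nat.cast_nonneg n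
      refine mul_le_mul ?_ ?_ (by positivity) ?_
      · refine Finset.prod_le_prod (fun _ _ => norm_nonneg _) fun j _ => ?_
        refine (norm_add_le _ _).trans ?_
        rw [Complex.norm_natCast]
        linarith
      · apply Real.rpow_le_rpow_of_exponent_le
        · linarith
        · linarith
      · refine Finset.prod_nonneg fun j _ => ?_
        have := norm_nonneg s0
        positivity
  exact (key.differentiableAt (Metric.ball_mem_nhds s0 hdpos)).differentiableWithinAt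

/-! ### Dirichlet characters -/

def ch {q : ℕ} (χ : DirichletCharacter ℂ q) (n : ℕ) : ℂ := χ ((n + 1 : ℕ) : ZMod q)

theorem ch_PM {q : ℕ} [NeZero q] {χ : DirichletCharacter ℂ q} (hχ : χ ≠ 1) : PM q (ch χ) := by
  constructor
  · intro n
    unfold ch
    congr 1
    push_cast
    simp
  · have h1 : ∑ a : ZMod q, χ a = 0 := MulChar.sum_eq_zero_of_ne_one hχ
    have h2 : ∑ n ∈ Finset.range q, ch χ n = ∑ a : ZMod q, χ (a + 1) := by
      unfold ch
      refine Finset.sum_nbij' (fun n => (n : ZMod q)) (fun a => a.val) ?_ ?_ ?_ ?_ ?_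
      · intro n _; exact Finset.mem_univ _
      · intro a _; exact Finset.mem_range.2 (ZMod.val_lt a)
      · intro n hn; exact ZMod.val_cast_of_lt (Finset.mem_range.1 hn)
      · intro a _; exact ZMod.natCast_zmod_val a
      · intro n _; push_cast; rfl
    rw [h2, ← h1]
    exact Equiv.sum_comp (Equiv.addRight (1 : ZMod q)) (fun a => χ a)

theorem L_eq_H {q : ℕ} [NeZero q] (χ : DirichletCharacter ℂ q) {s : ℂ} (hs : 1 < s.re) :
    DirichletCharacter.LFunction χ s = H 0 (ch χ) s := by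
  rw [DirichletCharacter.LFunction_eq_LSeries χ hs]
  unfold LSeries H
  have hsum : Summable (LSeries.term (fun n => χ n) s) :=
    LSeriesSummable_of_bounded_of_one_lt_re (m := 1) (fun n _ => χ.norm_le_one _) hs
  rw [hsum.tsum_eq_zero_add, LSeries.term_zero, zero_add]
  refine tsum_congr fun n => ?_
  rw [LSeries.term_of_ne_zero (by omega)]
  show _ = ch χ n * (((n : ℝ) + 1 : ℝ) : ℂ) ^ (-s)
  unfold ch
  rw [Complex.cpow_neg, div_eq_mul_inv]
  push_cast
  rfl

theorem L_eq {q : ℕ} [NeZero q] {χ : DirichletCharacter ℂ q} (hχ : χ ≠ 1) (k : ℕ) {s : ℂ}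
    (hs : 1 - (k : ℝ) < s.re) : DirichletCharacter.LFunction χ s =
      ∑ j ∈ Finset.range k, cc q (aseq q (ch χ) j) * D j s 1 + H k (aseq q (ch χ) k) s := by
  have hq : 0 < q := Nat.pos_of_ne_zero (NeZero.ne q)
  have hP := ch_PM hχ
  obtain ⟨B, hB0, hB⟩ := (aseq_PM hq hP k).bdd hq
  set U : Set ℂ := {s : ℂ | 1 - (k : ℝ) < s.re} with hU
  have hUo : IsOpen U := isOpen_lt continuous_const Complex.continuous_re
  have hUc : IsPreconnected U := by
    have : Convex ℝ U := convex_halfSpace_re_gt _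
    exact this.isPreconnected
  set G : ℂ → ℂ := fun s => ∑ j ∈ Finset.range k, cc q (aseq q (ch χ) j) * D j s 1 +
    H k (aseq q (ch χ) k) s with hG
  have hGd : DifferentiableOn ℂ G U := by
    refine DifferentiableOn.add ?_ (H_diff hB0 hB)
    refine DifferentiableOn.fun_sum fun j _ => ?_
    exact ((D_diff j 1 one_pos).const_mul _).differentiableOn
  have hLd : DifferentiableOn ℂ (DirichletCharacter.LFunction χ) U :=
    (DirichletCharacter.differentiable_LFunction hχ).differentiableOn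
  have h2U : (2 : ℂ) ∈ U := by
    show 1 - (k : ℝ) < (2 : ℂ).re
    have : (0 : ℝ) ≤ k := Nat.cast_nonneg k
    have h2 : (2 : ℂ).re = 2 := by norm_num
    rw [h2]; linarith
  have hev : DirichletCharacter.LFunction χ =ᶠ[𝓝 (2 : ℂ)] G := by
    have hopen : IsOpen {s : ℂ | 1 < s.re} := isOpen_lt continuous_const Complex.continuous_re
    filter_upwards [hopen.mem_nhds (show (2 : ℂ) ∈ {s : ℂ | 1 < s.re} by
      show (1 : ℝ) < (2 : ℂ).re; norm_num)] with s hs
    rw [L_eq_H χ hs, H_iter hq hP hs k]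
  exact (hLd.analyticOnNhd hUo).eqOn_of_preconnected_of_eventuallyEq (hGd.analyticOnNhd hUo)
    hUc h2U hev hs

theorem dirGrowth : DirGrowth := by
  intro q _ χ hχ a b
  have hq : 0 < q := Nat.pos_of_ne_zero (NeZero.ne q)
  have hP := ch_PM hχ
  obtain ⟨k, hk⟩ := exists_nat_ge (2 - a)
  obtain ⟨B, hB0, hB⟩ := (aseq_PM hq hP k).bdd hq
  set M : ℝ := max |a| |b| with hM
  have hM0 : 0 ≤ M := (abs_nonneg a).trans (le_max_left _ _)
  set Z : ℝ := ∑' n : ℕ, ((n : ℝ) + 1) ^ (-(2 : ℝ)) with hZ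
  have hZ0 : 0 ≤ Z := tsum_nonneg fun n => by positivity
  set C1 : ℝ := ∑ j ∈ Finset.range k, ‖cc q (aseq q (ch χ) j)‖ * (2 ^ j * (1 + (j : ℝ)) ^ M)
    with hC1
  have hC10 : 0 ≤ C1 := Finset.sum_nonneg fun j _ => by positivity
  refine ⟨C1 + B * ((M + 1 + k) ^ k * Z), k, ?_⟩
  intro s h1 h2
  have hre : |s.re| ≤ M := by
    rw [abs_le]
    constructor
    · have := neg_abs_le a
      have := le_max_left |a| |b|
      linarith
    · have := le_abs_self b
      have := le_max_right |a| |b|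
      linarith
  have hk0 : (0 : ℝ) ≤ k := Nat.cast_nonneg k
  rw [L_eq hχ k (by linarith)]
  have ht : 1 ≤ 1 + |s.im| := by linarith [abs_nonneg s.im]
  have ht2 : (1 : ℝ) ≤ (1 + |s.im|) ^ (k : ℝ) := Real.one_le_rpow ht hk0
  have e1 : ‖∑ j ∈ Finset.range k, cc q (aseq q (ch χ) j) * D j s 1‖ ≤ C1 := by
    refine (norm_sum_le _ _).trans (Finset.sum_le_sum fun j _ => ?_)
    rw [norm_mul]
    exact mul_le_mul_of_nonneg_left (D_crude j s 1 M le_rfl hre) (norm_nonneg _)
  have e2 : (∏ j ∈ Finset.range k, ‖s + j‖) ≤ (M + 1 + k) ^ k * (1 + |s.im|) ^ (k : ℝ) := by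
    have : ∀ j ∈ Finset.range k, ‖s + j‖ ≤ (M + 1 + k) * (1 + |s.im|) := by
      intro j hj
      have hj' : (j : ℝ) ≤ k := by exact_mod_cast (Finset.mem_range.1 hj).le
      have h3 : ‖s‖ ≤ |s.re| + |s.im| := Complex.norm_le_abs_re_add_abs_im s
      have h4 : ‖s + j‖ ≤ ‖s‖ + j := by
        refine (norm_add_le _ _).trans ?_
        rw [Complex.norm_natCast]
      have h5 : 0 ≤ |s.im| := abs_nonneg _
      nlinarith [mul_nonneg hM0 h5, mul_nonneg hk0 h5]
    refine (Finset.prod_le_prod (fun j _ => norm_nonneg _) this).trans (le_of_eq ?_)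
    rw [Finset.prod_const, Finset.card_range, mul_pow, Real.rpow_natCast]
  have e3 := H_bound (k := k) hB0 hB (s := s) (by linarith)
  calc ‖∑ j ∈ Finset.range k, cc q (aseq q (ch χ) j) * D j s 1 + H k (aseq q (ch χ) k) s‖
      ≤ C1 + B * (((M + 1 + k) ^ k * (1 + |s.im|) ^ (k : ℝ)) * Z) := by
        refine (norm_add_le _ _).trans (add_le_add e1 (e3.trans ?_))
        exact mul_le_mul_of_nonneg_left (mul_le_mul_of_nonneg_right e2 hZ0) hB0
    _ ≤ C1 * (1 + |s.im|) ^ (k : ℝ) + B * (((M + 1 + k) ^ k * (1 + |s.im|) ^ (k : ℝ)) * Z) := by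
        have := mul_le_mul_of_nonneg_left ht2 hC10
        linarith
    _ = (C1 + B * ((M + 1 + k) ^ k * Z)) * (1 + |s.im|) ^ (k : ℝ) := by ring

end

end Pool.Agent.H726R2.MolDir
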